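import Pool.Agent.W519.N

open Set Topology Filter

namespace Pool.Agent.W519.N

theorem exists_exhaustion {X : Type*} [MetricSpace X] [LocallyCompactSpace X]
    (h : TopologicalSpace.IsSeparable (NonIso X)) :
    ∃ C : ℕ → Set X, (∀ n, IsCompact (C n)) ∧ (∀ n, C n ⊆ interior (C (n + 1))) ∧
      NonIso X ⊆ ⋃ n, C n := by
  classical
  have : SecondCountableTopology (NonIso X) := h.secondCountableTopology
  have hL : IsLindelof (NonIso X) := IsLindelof.of_coe
  choose s hc hmem using fun x : X => exists_compact_mem_nhds x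
  obtain ⟨t, htc, -, hts⟩ := hL.elim_nhds_subcover s (fun x _ => hmem x)
  obtain ⟨K, hK, hKs⟩ : ∃ K : ℕ → Set X, (∀ n, IsCompact (K n)) ∧ NonIso X ⊆ ⋃ n, K n := by
    rcases t.eq_empty_or_nonempty with rfl | hne
    · refine ⟨fun _ => ∅, fun _ => isCompact_empty, ?_⟩
      simpa using hts
    · obtain ⟨f, hf⟩ := htc.exists_eq_range hne
      refine ⟨fun n => s (f n), fun n => hc _, ?_⟩
      rw [hf, biUnion_range] at hts
      exact hts
  choose! g hgc hgs using fun (K : Set X) (hK : IsCompact K) => exists_compact_superset hK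
  let C : ℕ → Set X := fun n => Nat.rec ∅ (fun n c => g (c ∪ K n)) n
  have hCc : ∀ n, IsCompact (C n) := by
    intro n
    induction n with
    | zero => exact isCompact_empty
    | succ n ih => exact hgc _ (ih.union (hK n))
  have hstep : ∀ n, C n ∪ K n ⊆ interior (C (n + 1)) := fun n =>
    hgs _ ((hCc n).union (hK n))
  refine ⟨C, hCc, fun n => subset_union_left.trans (hstep n), ?_⟩
  intro x hx
  obtain ⟨n, hn⟩ := mem_iUnion.1 (hKs hx)
  exact mem_iUnion.2 ⟨n + 1, interior_subset (hstep n (Or.inr hn))⟩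

end Pool.Agent.W519.N
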