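import Pool.Agent.W982.TA.Stm

set_option autoImplicit false

namespace Pool.Agent.W982.TA

theorem g1_real (a b c r : Pt) (x y z : ℝ) (hxyz : x + y + z = 1)
    (h1 : (r.1 : ℝ) = x * a.1 + y * b.1 + z * c.1) (h2 : (r.2 : ℝ) = x * a.2 + y * b.2 + z * c.2) :
    ((dt a b r : ℤ) : ℝ) = z * (dt a b c : ℤ) ∧ ((dt b c r : ℤ) : ℝ) = x * (dt a b c : ℤ) ∧
      ((dt c a r : ℤ) : ℝ) = y * (dt a b c : ℤ) := by
  have hx : x = 1 - y - z := by linarith
  subst hx
  unfold dt
  push_cast
  rw [h1, h2]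
  refine ⟨?_, ?_, ?_⟩ <;> ring

theorem g1 : TaskG1 := by
  intro a b c r hD
  have hDR : (0 : ℝ) < ((dt a b c : ℤ) : ℝ) := by exact_mod_cast hD
  constructor
  · intro h
    rw [convexHull_insert (Set.insert_nonempty _ _), convexHull_pair, mem_convexJoin] at h
    obtain ⟨p, hp, q, hq, hr⟩ := h
    rw [Set.mem_singleton_iff] at hp
    subst hp
    obtain ⟨β, γ, hβ, hγ, hβγ, rfl⟩ := hq
    obtain ⟨s, t, hs, ht, hst, hr⟩ := hr
    have e1 := congrArg Prod.fst hr
    have e2 := congrArg Prod.snd hr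
    simp only [emb, Prod.smul_mk, Prod.mk_add_mk, smul_eq_mul] at e1 e2
    obtain ⟨k1, k2, k3⟩ := g1_real a b c r s (t * β) (t * γ) (by
      rw [add_assoc, ← mul_add, hβγ, mul_one, hst]) (by rw [← e1]; ring) (by rw [← e2]; ring)
    have m1 : (0 : ℝ) ≤ ((dt a b r : ℤ) : ℝ) := by rw [k1]; positivity
    have m2 : (0 : ℝ) ≤ ((dt b c r : ℤ) : ℝ) := by rw [k2]; positivity
    have m3 : (0 : ℝ) ≤ ((dt c a r : ℤ) : ℝ) := by rw [k3]; positivity
    exact ⟨by exact_mod_cast m1, by exact_mod_cast m2, by exact_mod_cast m3⟩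
  · rintro ⟨m1, m2, m3⟩
    have n1 : (0 : ℝ) ≤ ((dt a b r : ℤ) : ℝ) := by exact_mod_cast m1
    have n2 : (0 : ℝ) ≤ ((dt b c r : ℤ) : ℝ) := by exact_mod_cast m2
    have n3 : (0 : ℝ) ≤ ((dt c a r : ℤ) : ℝ) := by exact_mod_cast m3
    set D : ℝ := ((dt a b c : ℤ) : ℝ) with hDdef
    have hsum : ((dt b c r : ℤ) : ℝ) + ((dt c a r : ℤ) : ℝ) + ((dt a b r : ℤ) : ℝ) = D := by
      rw [hDdef]
      unfold dt
      push_cast
      ring
    have key : emb r = (((dt b c r : ℤ) : ℝ) / D) • emb a + (((dt c a r : ℤ) : ℝ) / D) • emb b +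
        (((dt a b r : ℤ) : ℝ) / D) • emb c := by
      have hD0 : D ≠ 0 := hDR.ne'
      simp only [emb, Prod.smul_mk, Prod.mk_add_mk, smul_eq_mul]
      refine Prod.ext ?_ ?_
      · change (r.1 : ℝ) = _
        field_simp
        rw [hDdef]
        unfold dt
        push_cast
        ring
      · change (r.2 : ℝ) = _
        field_simp
        rw [hDdef]
        unfold dt
        push_cast
        ring
    have hmem : ∀ p ∈ ({emb a, emb b, emb c} : Set (ℝ × ℝ)),
        p ∈ convexHull ℝ ({emb a, emb b, emb c} : Set (ℝ × ℝ)) :=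
      fun p hp => subset_convexHull ℝ _ hp
    have hs := (convex_convexHull ℝ ({emb a, emb b, emb c} : Set (ℝ × ℝ))).sum_mem
      (t := (Finset.univ : Finset (Fin 3)))
      (w := ![((dt b c r : ℤ) : ℝ) / D, ((dt c a r : ℤ) : ℝ) / D, ((dt a b r : ℤ) : ℝ) / D])
      (z := ![emb a, emb b, emb c]) (by
        intro i _
        fin_cases i
        · exact div_nonneg n2 hDR.le
        · exact div_nonneg n3 hDR.le
        · exact div_nonneg n1 hDR.le) (by
        rw [Fin.sum_univ_three]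
        change ((dt b c r : ℤ) : ℝ) / D + ((dt c a r : ℤ) : ℝ) / D + ((dt a b r : ℤ) : ℝ) / D = 1
        rw [← add_div, ← add_div, hsum, div_self hDR.ne']) (by
        intro i _
        fin_cases i
        · exact hmem _ (by simp)
        · exact hmem _ (by simp)
        · exact hmem _ (by simp))
    rw [Fin.sum_univ_three] at hs
    rw [key]
    exact hs

end Pool.Agent.W982.TA
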