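import Pool.Agent.W527.CL.Stm

/-!
# Small non-zero vectors of logarithms (`S_SMALL`)
-/

namespace Pool.Agent.W999.CLSMALL

open Pool.Agent.W527.CL NumberField

noncomputable section

section

variable {K : Type} [Field K] [NumberField K] (D : FieldData K)

theorem lam_four (hL : S_LGC) (j : Fin 4) : D.lam j 4 = D.lam j 3 := by
  have h := (hL K D j 3).2.1
  rw [Equiv.swap_apply_left] at h
  rw [← (hL K D j 4).1, ← h, Complex.conj_re, (hL K D j 3).1]

theorem exists_s (hL : S_LGC) : ∃ s : Fin 4 → ℝ, (∃ i, s i = 2) ∧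
    ∃ κ : ℝ, ∀ k : Fin 5, ∑ j, s j * D.lam j k = κ := by
  let A : Matrix (Fin 3) (Fin 4) ℝ :=
    fun k j => D.lam j (Fin.castLE (by norm_num) k) - D.lam j 3
  have hker : LinearMap.ker (Matrix.mulVecLin A) ≠ ⊥ := by
    apply LinearMap.ker_ne_bot_of_finrank_lt
    simp
  obtain ⟨v, hv, hv0⟩ := (Submodule.ne_bot_iff _).1 hker
  obtain ⟨i, hi⟩ := Function.ne_iff.1 hv0
  rw [Pi.zero_apply] at hi
  have hA : ∀ k : Fin 3, ∑ j, v j * (D.lam j (Fin.castLE (by norm_num) k) - D.lam j 3) = 0 := by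
    intro k
    have h1 := congrFun (LinearMap.mem_ker.1 hv) k
    rw [Matrix.mulVecLin_apply] at h1
    simp only [Matrix.mulVec, dotProduct, A, Pi.zero_apply] at h1
    rw [← h1]
    exact Finset.sum_congr rfl fun j _ => mul_comm _ _
  refine ⟨fun j => 2 / v i * v j, ⟨i, by field_simp⟩, ∑ j, 2 / v i * v j * D.lam j 3, ?_⟩
  have hB : ∀ k : Fin 3, ∑ j, 2 / v i * v j * D.lam j (Fin.castLE (by norm_num) k) =
      ∑ j, 2 / v i * v j * D.lam j 3 := by
    intro k
    have h1 := hA k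
    have h2 : ∑ j, 2 / v i * v j * D.lam j (Fin.castLE (by norm_num) k) -
      ∑ j, 2 / v i * v j * D.lam j 3 =
      2 / v i * ∑ j, v j * (D.lam j (Fin.castLE (by norm_num) k) - D.lam j 3) := by
      rw [← Finset.sum_sub_distrib, Finset.mul_sum]
      exact Finset.sum_congr rfl fun j _ => by ring
    rw [h1, mul_zero] at h2
    linarith
  intro k
  fin_cases k
  · exact hB 0
  · exact hB 1
  · exact hB 2
  · rfl
  · exact Finset.sum_congr rfl fun j _ => by
      show 2 / v i * v j * D.lam j 4 = _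
      rw [lam_four D hL j]

/-- the sign on the two complex roots -/
def dl (k : Fin 5) : ℝ := if k = 3 then 1 else if k = 4 then -1 else 0

theorem sum_lgc (hL : S_LGC) (s : Fin 4 → ℝ) (κ : ℝ) (hκ : ∀ k : Fin 5, ∑ j, s j * D.lam j k = κ)
    (k : Fin 5) : ∑ j, (s j : ℂ) * D.lgc j k =
      (κ : ℂ) + ((∑ j, s j * (D.lgc j 3).im : ℝ) : ℂ) * (dl k : ℂ) * Complex.I := by
  apply Complex.ext
  · rw [Complex.re_sum]
    have : ∀ j, ((s j : ℂ) * D.lgc j k).re = s j * D.lam j k := by
      intro j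
      rw [Complex.re_ofReal_mul, (hL K D j k).1]
    simp only [this, hκ k]
    simp [-Complex.ofReal_sum]
  · rw [Complex.im_sum]
    have : ∀ j, ((s j : ℂ) * D.lgc j k).im = s j * (dl k * (D.lgc j 3).im) := by
      intro j
      rw [Complex.im_ofReal_mul]
      congr 1
      have h1 := congrArg Complex.im (hL K D j k).2.1
      rw [Complex.conj_im] at h1
      unfold dl
      fin_cases k
      · have h2 : Equiv.swap (3 : Fin 5) 4 0 = 0 := by decide
        simp only [Fin.zero_eta, h2] at h1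
        have : (D.lgc j 0).im = 0 := by linarith
        simp [this]
      · have h2 : Equiv.swap (3 : Fin 5) 4 1 = 1 := by decide
        simp only [Fin.mk_one, h2] at h1
        have : (D.lgc j 1).im = 0 := by linarith
        simp [this]
      · have h2 : Equiv.swap (3 : Fin 5) 4 2 = 2 := by decide
        simp only [Fin.reduceFinMk, h2] at h1
        have : (D.lgc j 2).im = 0 := by linarith
        simp [this]
      · simp
      · have h2 : Equiv.swap (3 : Fin 5) 4 4 = 3 := by decide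
        simp only [Fin.reduceFinMk, h2] at h1
        have : (D.lgc j 4).im = -(D.lgc j 3).im := by linarith
        simp [this]
    simp only [this]
    simp only [Complex.add_im, Complex.ofReal_im, Complex.mul_im, Complex.mul_re,
      Complex.ofReal_re, Complex.I_re, Complex.I_im, mul_zero, mul_one, zero_mul, sub_zero,
      add_zero, zero_add, Finset.sum_mul]
    exact Finset.sum_congr rfl fun j _ => by ring

/-- linearity -/
theorem muc_sub (X Y : Matrix (Fin 4) (Fin 4) ℝ) (x y : Fin 4 → ℝ) (q : ℝ) (i : Fin 4)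
    (k : Fin 5) : D.muc (fun i j => X i j - q * Y i j) (fun i => x i - q * y i) i k =
      D.muc X x i k - q * D.muc Y y i k := by
  unfold FieldData.muc
  have : ∑ j, (((X i j - q * Y i j : ℝ)) : ℂ) * D.lgc j k =
      ∑ j, (X i j : ℂ) * D.lgc j k - q * ∑ j, (Y i j : ℂ) * D.lgc j k := by
    rw [Finset.mul_sum, ← Finset.sum_sub_distrib]
    exact Finset.sum_congr rfl fun j _ => by push_cast; ring
  rw [this]
  push_cast
  ring

theorem ev_sub (μ ν : Fin 4 → Fin 5 → ℂ) (q : ℂ) (p : Equiv.Perm (Fin 5)) :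
    ev (fun i k => μ i k - q * ν i k) p = ev μ p - q * ev ν p := by
  unfold ev
  rw [Finset.mul_sum, ← Finset.sum_sub_distrib]
  exact Finset.sum_congr rfl fun j _ => by ring

theorem norm_ev_le (μ : Fin 4 → Fin 5 → ℂ) (B : ℝ) (hB : ∀ i k, ‖μ i k‖ ≤ B)
    (p : Equiv.Perm (Fin 5)) : ‖ev μ p‖ ≤ 8 * B := by
  unfold ev
  refine (norm_sum_le _ _).trans ?_
  refine (Finset.sum_le_card_nsmul _ _ (2 * B) ?_).trans ?_
  · intro i _
    refine (norm_sub_le _ _).trans ?_
    linarith [hB i (p i.castSucc), hB i (p (Fin.last 4))]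
  · simp only [Finset.card_univ, Fintype.card_fin, nsmul_eq_mul]
    norm_num
    linarith

theorem norm_muc_le (X : Matrix (Fin 4) (Fin 4) ℝ) (x : Fin 4 → ℝ) (η Λ : ℝ) (hη : 0 ≤ η)
    (hX : ∀ i j, |X i j| ≤ 2 * η) (hx : ∀ i, |x i| ≤ η) (hΛ : ∀ j k, ‖D.lgc j k‖ ≤ Λ) (i : Fin 4)
    (k : Fin 5) : ‖D.muc X x i k‖ ≤ η * (8 * Λ + 8) := by
  have hΛ0 : 0 ≤ Λ := (norm_nonneg _).trans (hΛ 0 0)
  unfold FieldData.muc
  refine (norm_add_le _ _).trans ?_
  have h1 : ‖∑ j, (X i j : ℂ) * D.lgc j k‖ ≤ 4 * (2 * η * Λ) := by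
    refine (norm_sum_le _ _).trans ?_
    refine (Finset.sum_le_card_nsmul _ _ (2 * η * Λ) ?_).trans ?_
    · intro j _
      rw [norm_mul, Complex.norm_real]
      exact mul_le_mul (hX i j) (hΛ j k) (norm_nonneg _) (by linarith)
    · simp only [Finset.card_univ, Fintype.card_fin, nsmul_eq_mul]
      norm_num
  have h2 : ‖(x i : ℂ) * (2 * Real.pi * Complex.I) *
      (if k = 3 then 1 else if k = 4 then -1 else 0)‖ ≤ η * 8 := by
    rw [norm_mul, norm_mul, Complex.norm_real]
    have h3 : ‖(2 * Real.pi * Complex.I : ℂ)‖ ≤ 8 := by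
      rw [norm_mul, norm_mul, Complex.norm_I, Complex.norm_real, Complex.norm_ofNat,
        Real.norm_of_nonneg Real.pi_pos.le]
      linarith [Real.pi_le_four]
    have h4 : ‖(if k = 3 then 1 else if k = 4 then -1 else 0 : ℂ)‖ ≤ 1 := by
      split_ifs <;> simp
    calc ‖x i‖ * ‖(2 * Real.pi * Complex.I : ℂ)‖ *
          ‖(if k = 3 then 1 else if k = 4 then -1 else 0 : ℂ)‖ ≤ η * 8 * 1 := by
          refine mul_le_mul (mul_le_mul (hx i) h3 (norm_nonneg _) hη) h4 (norm_nonneg _) ?_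
          positivity
      _ = η * 8 := by ring
  linarith

end

theorem t_SMALL (hD : S_DIR) (hL : S_LGC) (hI : S_INDEP) (hZ : S_ZERO) : S_SMALL := by
  intro K _ _ D ε hε
  obtain ⟨s, ⟨i0, hi0⟩, κ, hκ⟩ := exists_s D hL
  set θ : ℝ := ∑ j, s j * (D.lgc j 3).im with hθ
  -- the exact relation
  have hzero : ∀ i k, D.muc (fun i j => s i * s j) (fun i => -(s i * θ / (2 * Real.pi))) i k =
      (s i : ℂ) * κ := by
    intro i k
    unfold FieldData.muc
    have h1 : ∑ j, ((s i * s j : ℝ) : ℂ) * D.lgc j k = (s i : ℂ) * ∑ j, (s j : ℂ) * D.lgc j k := by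
      rw [Finset.mul_sum]
      exact Finset.sum_congr rfl fun j _ => by push_cast; ring
    rw [h1, sum_lgc D hL s κ hκ k, ← hθ]
    have h2 : (if k = 3 then 1 else if k = 4 then -1 else 0 : ℂ) = (dl k : ℂ) := by
      unfold dl
      split_ifs <;> simp
    rw [h2]
    have hpi : (Real.pi : ℂ) ≠ 0 := by exact_mod_cast Real.pi_ne_zero
    push_cast
    field_simp
    ring
  have hev0 : ∀ p, ev (D.muc (fun i j => s i * s j)
      (fun i => -(s i * θ / (2 * Real.pi)))) p = 0 := by
    intro p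
    unfold ev
    simp only [hzero, sub_self, Finset.sum_const_zero]
  -- the bound for the logarithms
  obtain ⟨Λ, hΛ⟩ : ∃ Λ : ℝ, ∀ j k, ‖D.lgc j k‖ ≤ Λ := by
    refine ⟨∑ j, ∑ k, ‖D.lgc j k‖, fun j k => ?_⟩
    refine (Finset.single_le_sum (f := fun k => ‖D.lgc j k‖) (fun _ _ => norm_nonneg _)
      (Finset.mem_univ k)).trans ?_
    exact Finset.single_le_sum (f := fun j => ∑ k, ‖D.lgc j k‖)
      (fun _ _ => Finset.sum_nonneg fun _ _ => norm_nonneg _) (Finset.mem_univ j)
  have hΛ0 : 0 ≤ Λ := (norm_nonneg _).trans (hΛ 0 0)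
  set B : ℝ := 8 * (8 * Λ + 8) with hB
  have hBpos : 0 < B := by positivity
  set η : ℝ := min (1 / 2) (ε / (2 * B)) with hη
  have hηpos : 0 < η := lt_min (by norm_num) (by positivity)
  have hη1 : η ≤ 1 / 2 := min_le_left _ _
  have hη2 : η * B < ε := by
    have h1 : η ≤ ε / (2 * B) := min_le_right _ _
    have h2 : η * B ≤ ε / (2 * B) * B := mul_le_mul_of_nonneg_right h1 hBpos.le
    have h3 : ε / (2 * B) * B = ε / 2 := by field_simp
    linarith
  obtain ⟨q, hq, m, hm⟩ := hD ((Fin 4 × Fin 4) ⊕ Fin 4)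
    (Sum.elim (fun ij => s ij.1 * s ij.2 / 2) (fun i => -(s i * θ / (2 * Real.pi)))) η hηpos
  have hm1 : ∀ i j, |(q : ℝ) * (s i * s j / 2) - m (Sum.inl (i, j))| < η := fun i j =>
    hm (Sum.inl (i, j))
  have hm2 : ∀ i, |(q : ℝ) * (-(s i * θ / (2 * Real.pi))) - m (Sum.inr i)| < η := fun i =>
    hm (Sum.inr i)
  set C : Matrix (Fin 4) (Fin 4) ℤ := fun i j => m (Sum.inl (i, j)) with hC
  set r : Fin 4 → ℤ := fun i => m (Sum.inr i) with hr
  have hCs : ∀ i j, |((C i j + C j i : ℤ) : ℝ) - q * (s i * s j)| ≤ 2 * η := by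
    intro i j
    have h1 := (abs_lt.1 (hm1 i j))
    have h2 := (abs_lt.1 (hm1 j i))
    rw [abs_le]
    push_cast
    simp only [hC]
    constructor <;> nlinarith [h1.1, h1.2, h2.1, h2.2]
  have hrs : ∀ i, |((r i : ℤ) : ℝ) - q * (-(s i * θ / (2 * Real.pi)))| ≤ η := by
    intro i
    rw [abs_sub_comm]
    exact (hm2 i).le
  refine ⟨C, r, ?_, ?_⟩
  · intro h0
    have hev : ∀ p, ev (D.muc (fun i j => ((C i j + C j i : ℤ) : ℝ)) (fun i => (r i : ℝ))) p
        = 0 := by
      intro p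
      obtain ⟨φ, hφ⟩ := D.surj p
      have hp : D.perm φ = p := by
        ext k
        have h1 := D.perm_spec φ k
        rw [hφ k] at h1
        rw [D.inj h1]
      have h2 := congrFun h0 φ
      unfold FieldData.vec at h2
      rw [hp] at h2
      exact h2
    have h01 := hZ ℂ _ hev i0 0 1
    have hexp : ∀ k : Fin 5, k ≠ 3 → k ≠ 4 →
        Complex.exp (D.muc (fun i j => ((C i j + C j i : ℤ) : ℝ)) (fun i => (r i : ℝ)) i0 k) =
          ∏ j, (D.β k + (nn j : ℂ)) ^ (C i0 j + C j i0) := by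
      intro k hk3 hk4
      unfold FieldData.muc
      rw [if_neg hk3, if_neg hk4, mul_zero, add_zero, Complex.exp_sum]
      apply Finset.prod_congr rfl
      intro j _
      rw [← (hL K D j k).2.2, ← Complex.exp_int_mul]
      congr 1
    have h1 := hexp 0 (by decide) (by decide)
    have h2 := hexp 1 (by decide) (by decide)
    rw [h01, h2] at h1
    have h3 := congrFun (hI K D (fun j => C i0 j + C j i0) h1.symm) i0
    simp only [Pi.zero_apply] at h3
    have h4 : C i0 i0 = 0 := by omega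
    have h5 := hm1 i0 i0
    have h6 : m (Sum.inl (i0, i0)) = 0 := h4
    rw [h6, hi0] at h5
    have h7 := (abs_lt.1 h5).2
    have h8 : (1 : ℝ) ≤ q := by exact_mod_cast hq
    norm_num at h7
    linarith
  · rw [pi_norm_lt_iff hε]
    intro φ
    have h1 : D.vec C r φ = ev (D.muc
        (fun i j => ((C i j + C j i : ℤ) : ℝ) - q * (s i * s j))
        (fun i => ((r i : ℤ) : ℝ) - q * (-(s i * θ / (2 * Real.pi))))) (D.perm φ) := by
      have h2 : D.muc (fun i j => ((C i j + C j i : ℤ) : ℝ) - q * (s i * s j))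
          (fun i => ((r i : ℤ) : ℝ) - q * (-(s i * θ / (2 * Real.pi)))) =
          fun i k => D.muc (fun i j => ((C i j + C j i : ℤ) : ℝ)) (fun i => (r i : ℝ)) i k -
            ((q : ℝ) : ℂ) * D.muc (fun i j => s i * s j)
              (fun i => -(s i * θ / (2 * Real.pi))) i k := by
        funext i k
        exact muc_sub D (fun i j => ((C i j + C j i : ℤ) : ℝ)) (fun i j => s i * s j)
          (fun i => (r i : ℝ)) (fun i => -(s i * θ / (2 * Real.pi))) q i k
      rw [h2, ev_sub, hev0, mul_zero, sub_zero]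
      rfl
    rw [h1]
    refine (norm_ev_le _ (η * (8 * Λ + 8)) ?_ _).trans_lt ?_
    · intro i k
      exact norm_muc_le D _ _ η Λ hηpos.le hCs hrs hΛ i k
    · calc 8 * (η * (8 * Λ + 8)) = η * B := by rw [hB]; ring
        _ < ε := hη2

end

end Pool.Agent.W999.CLSMALL
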