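import Pool.Agent.W886.MZ.Stm1

/-!
# The number of the strings that code answers (`S_CNT2`)
-/

set_option autoImplicit false

namespace Pool.Agent.W999.MZCNT2

open Pool.Agent.W886.MZ

theorem rk_mono (h : ℕ → Bool) {m n : ℕ} (hmn : m ≤ n) : rk h m ≤ rk h n := by
  unfold rk
  have h1 : (List.range m).Sublist (List.range n) := by
    obtain ⟨k, rfl⟩ := Nat.exists_eq_add_of_le hmn
    rw [List.range_add]
    exact List.sublist_append_left _ _
  exact (h1.filter h).length_le

theorem length_cs2 (e m : ℕ) : (cs2 e m).length = e + 1 + 2 ^ m ^ 2 := by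
  unfold cs2
  simp only [List.length_append, List.length_cons, List.length_replicate]
  ring

theorem task : S_CNT2 := by
  intro h n
  classical
  have hsub : {y : List Bool | y.length ≤ n ∧ ∃ e m, h m = true ∧ e < rk h m ∧ y = cs2 e m} ⊆
      (((Finset.range (rk h n)) ×ˢ (((List.range n).filter h).toFinset)).image
        (fun p => cs2 p.1 p.2) : Finset (List Bool)) := by
    rintro y ⟨hy, e, m, hm, he, rfl⟩
    rw [length_cs2] at hy
    have h1 : m ≤ m ^ 2 := Nat.le_self_pow (by norm_num) m
    have h2 : m ^ 2 < 2 ^ m ^ 2 := Nat.lt_two_pow_self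
    have hmn : m < n := by omega
    have h3 := rk_mono h hmn.le
    rw [Finset.mem_coe, Finset.mem_image]
    refine ⟨(e, m), ?_, rfl⟩
    rw [Finset.mem_product]
    refine ⟨Finset.mem_range.2 (by simp only; omega), ?_⟩
    rw [List.mem_toFinset, List.mem_filter]
    exact ⟨List.mem_range.2 hmn, hm⟩
  refine (Set.ncard_le_ncard hsub (Finset.finite_toSet _)).trans ?_
  rw [Set.ncard_coe_finset]
  refine Finset.card_image_le.trans ?_
  rw [Finset.card_product, Finset.card_range, sq]
  exact Nat.mul_le_mul_left _ (List.toFinset_card_le _)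

end Pool.Agent.W999.MZCNT2
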